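import Pool.Agent.Helper27.BG.Top

set_option autoImplicit false

namespace Pool.Agent.Results.MP_3ec731_nt.BoundedGaps240

/-- The pattern `{0, d}` is realised at `n`: the numbers `n` and `n + d` are consecutive primes. -/
def Realises (n d : ℕ) : Prop :=
  0 < d ∧ n.Prime ∧ (n + d).Prime ∧ ∀ k, n < k → k < n + d → ¬ k.Prime

/-- `H` misses a residue class modulo every prime. -/
def Admissible (H : Finset ℕ) : Prop :=
  ∀ p : ℕ, p.Prime → ∃ a : ℕ, ∀ h ∈ H, ¬ h ≡ a [MOD p]

/-- Every admissible set of 49 natural numbers contains two numbers whose difference is the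
difference of infinitely many pairs of consecutive primes. In particular there is such a
difference `d ≤ 240`. -/
theorem result :
    (∀ H : Finset ℕ, H.card = 49 → Admissible H →
      ∃ a ∈ H, ∃ b ∈ H, a < b ∧ {n : ℕ | Realises n (b - a)}.Infinite) ∧
    ∃ d ≤ 240, {n : ℕ | Realises n d}.Infinite := by
  constructor
  · intro H hc hA
    refine Pool.Agent.Helper27.BG.top_fin H hc fun p hp => ?_
    obtain ⟨a, ha⟩ := hA p hp
    refine ⟨p - a % p, fun h hh hd => ha h hh ?_⟩
    have hlt : a % p < p := Nat.mod_lt _ hp.pos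
    have h1 : p - a % p + h ≡ 0 [MOD p] := (Nat.modEq_zero_iff_dvd).2 hd
    have h2 : p - a % p + h + a % p ≡ 0 + a % p [MOD p] := h1.add_right _
    have h3 : p - a % p + h + a % p = p + h := by omega
    rw [h3, zero_add] at h2
    have h4 : p + h ≡ h [MOD p] := by
      simp [Nat.ModEq]
    exact h4.symm.trans (h2.trans (Nat.mod_modEq _ _))
  · obtain ⟨d, -, hd, h⟩ := Pool.Agent.Helper27.BG.top_240
    exact ⟨d, hd, h⟩

end Pool.Agent.Results.MP_3ec731_nt.BoundedGaps240
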