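import Pool.Agent.Helper73.MX.Hausdorff

set_option autoImplicit false

namespace Pool.Agent.Results.MP_3ec731_nt.CoarsePatterns

/-- Every set `X` of at most `s` natural numbers is, up to an error `w` that does not depend on
`X`, an exact pattern of primes.  For all `s` and `r` there is `Q`, and for every modulus `m`
there is `w`, such that for every `v` prime to `m`, every `X` with at most `s` elements and every
`I` there is a set `H` of at most `Q` numbers, all lying in intervals `[x, x + w]`, `x ∈ X`, and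
at least `r` of them in each of these intervals, such that for at least `N ^ (1 - ε)` integers
`n < N` (for arbitrarily large `N`) the primes of `[n - I, n + max X + w + I]` are exactly the
numbers `n + h`, `h ∈ H`, and they are all `≡ v` modulo `m`. -/
theorem result (s r : ℕ) : ∃ Q : ℕ, ∀ m : ℕ, 0 < m → ∃ w : ℕ, ∀ v : ℕ, v.Coprime m →
    ∀ X : Finset ℕ, X.card ≤ s → ∀ I : ℕ, ∃ H : Finset ℕ, H.card ≤ Q ∧
      (∀ h ∈ H, ∃ x ∈ X, x ≤ h ∧ h ≤ x + w) ∧
      (∀ x ∈ X, r ≤ (H.filter (fun h => x ≤ h ∧ h ≤ x + w)).card) ∧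
      ∀ ε : ℝ, 0 < ε → ∀ N₀ : ℕ, ∃ N ≥ N₀, (N : ℝ) ^ (1 - ε) ≤ Set.ncard {n : ℕ | n < N ∧
        (∀ h ∈ H, n + h ≡ v [MOD m]) ∧
        ∀ p : ℕ, n ≤ p + I → p ≤ n + X.sup id + w + I → (p.Prime ↔ ∃ h ∈ H, p = n + h)} :=
  Pool.Agent.Helper73.MX.hausdorff s r

end Pool.Agent.Results.MP_3ec731_nt.CoarsePatterns
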