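import Pool.Agent.Helper90.MT.All

set_option autoImplicit false

namespace Pool.Agent.Results.MP_3ec731_nt.Hereditary

open Pool.Agent.Helper90.MT

/-- Every infinite set `A` of natural numbers contains an infinite set `B` such that EVERY
nonempty finite subset `F` of `B` is an exact prime pattern: with `L = max F`, there are at least
`x ^ (1 - ε)` integers `n < x` (for arbitrarily large `x`) such that `n + F` is precisely the set
of primes in the interval `[n - f L, n + L + f L]`. Here `f` is any function fixed in advance, and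
the `n` can moreover be taken in prescribed residue classes `v m` modulo every `m`, which form one
compatible system. -/
theorem result (f : ℕ → ℕ) (A : Set ℕ) (hA : A.Infinite) :
    ∃ B ⊆ A, B.Infinite ∧ ∃ v : ℕ → ℕ,
      (∀ m m' : ℕ, 0 < m' → m ∣ m' → v m' ≡ v m [MOD m]) ∧
      ∀ F : Finset ℕ, F.Nonempty → (F : Set ℕ) ⊆ B →
        ∀ m : ℕ, 0 < m → ∀ ε : ℝ, 0 < ε → ∀ x₀ : ℕ, ∃ x ≥ x₀,
          (x : ℝ) ^ (1 - ε) ≤ Set.ncard {n : ℕ | n < x ∧ n ≡ v m [MOD m] ∧
            ∀ k : ℕ, n ≤ k + f (F.sup id) → k ≤ n + F.sup id + f (F.sup id) →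
              (k.Prime ↔ ∃ j ∈ F, k = n + j)} := by
  classical
  obtain ⟨A', hA', hinf, v, hv, hu⟩ := thin A hA
  obtain ⟨B, hB, hBinf, h⟩ := main1_all f A' v hinf hv hu
  refine ⟨B, hB.trans hA', hBinf, v, hv, fun F hF hFB m hm ε hε x₀ => ?_⟩
  obtain ⟨x, hx, h'⟩ := h F hF hFB m hm ε hε x₀
  refine ⟨x, hx, h'.trans (le_of_eq ?_)⟩
  congr 1
  rw [← Set.ncard_coe_finset]
  congr 1
  ext n
  rw [Finset.mem_coe, Finset.mem_filter, Finset.mem_range]
  exact Iff.rfl

end Pool.Agent.Results.MP_3ec731_nt.Hereditary
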