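import Pool.Agent.Helper29.H2.Top
import Pool.Agent.Helper29.H2.M_TU

set_option autoImplicit false

namespace Pool.Agent.Results.MP_3ec731_nt.ThreeConsecutive

/-- The pattern `{0, d, e}` is realised at `n` as consecutive primes: `0 < d < e` and the primes
in `[n, n + e]` are exactly `n`, `n + d` and `n + e`. -/
def Realises (n d e : ℕ) : Prop :=
  0 < d ∧ d < e ∧ ∀ k, n ≤ k → k ≤ n + e → (k.Prime ↔ k = n ∨ k = n + d ∨ k = n + e)

/-- `H` misses a residue class modulo every prime. -/
def Admissible (H : Finset ℕ) : Prop :=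
  ∀ p : ℕ, p.Prime → ∃ a : ℕ, ∀ h ∈ H, ¬ h ≡ a [MOD p]

/-- Every admissible set of 3521 natural numbers contains three numbers `a < b < c` such that the
pattern `{0, b - a, c - a}` is realised infinitely often as three consecutive primes. In
particular such a pattern exists inside `[0, 31862]`. -/
theorem result :
    (∀ H : Finset ℕ, H.card = 3521 → Admissible H →
      ∃ a ∈ H, ∃ b ∈ H, ∃ c ∈ H, a < b ∧ b < c ∧ {n : ℕ | Realises n (b - a) (c - a)}.Infinite) ∧
    ∃ d e : ℕ, d < e ∧ e ≤ 31862 ∧ {n : ℕ | Realises n d e}.Infinite := by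
  have key : ∀ H : Finset ℕ, H.card = 3521 → Admissible H →
      ∃ a ∈ H, ∃ b ∈ H, ∃ c ∈ H, a < b ∧ b < c ∧
        {n : ℕ | Realises n (b - a) (c - a)}.Infinite := by
    intro H hc hA
    obtain ⟨T, hTH, hT3, hinf⟩ := Pool.Agent.Helper29.H2.top_set H hc (fun p hp => by
      obtain ⟨a, ha⟩ := hA p hp
      refine ⟨p - a % p, fun h hh hd => ha h hh ?_⟩
      have hlt : a % p < p := Nat.mod_lt _ hp.pos
      have h1 : p - a % p + h ≡ 0 [MOD p] := (Nat.modEq_zero_iff_dvd).2 hd
      have h2 : p - a % p + h + a % p ≡ 0 + a % p [MOD p] := h1.add_right _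
      have h3 : p - a % p + h + a % p = p + h := by omega
      rw [h3, zero_add] at h2
      have h4 : p + h ≡ h [MOD p] := by
        simp [Nat.ModEq]
      exact h4.symm.trans (h2.trans (Nat.mod_modEq _ _)))
    obtain ⟨x, y, z, hxy, hxz, hyz, rfl⟩ := Finset.card_eq_three.1 hT3
    -- order the three elements
    have hord : ∃ a b c : ℕ, a < b ∧ b < c ∧ ({x, y, z} : Finset ℕ) = {a, b, c} := by
      rcases lt_or_gt_of_ne hxy with h1 | h1 <;> rcases lt_or_gt_of_ne hxz with h2 | h2 <;>
        rcases lt_or_gt_of_ne hyz with h3 | h3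
      · exact ⟨x, y, z, h1, h3, rfl⟩
      · exact ⟨x, z, y, h2, h3, by ext t; simp only [Finset.mem_insert, Finset.mem_singleton]; tauto⟩
      · omega
      · exact ⟨z, x, y, h2, h1, by ext t; simp only [Finset.mem_insert, Finset.mem_singleton]; tauto⟩
      · exact ⟨y, x, z, h1, h2, by ext t; simp only [Finset.mem_insert, Finset.mem_singleton]; tauto⟩
      · omega
      · exact ⟨y, z, x, h3, h2, by ext t; simp only [Finset.mem_insert, Finset.mem_singleton]; tauto⟩
      · exact ⟨z, y, x, h3, h1, by ext t; simp only [Finset.mem_insert, Finset.mem_singleton]; tauto⟩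
    obtain ⟨a, b, c, hab, hbc, hT⟩ := hord
    rw [hT] at hTH hinf
    refine ⟨a, hTH (by simp), b, hTH (by simp), c, hTH (by simp), hab, hbc, ?_⟩
    refine (hinf.image (f := fun n => n + a) (fun m _ n _ h => by simpa using h)).mono ?_
    rintro _ ⟨n, hn, rfl⟩
    refine ⟨by omega, by omega, fun k (hk1 : n + a ≤ k) (hk2 : k ≤ n + a + (c - a)) => ?_⟩
    show k.Prime ↔ k = n + a ∨ k = n + a + (b - a) ∨ k = n + a + (c - a)
    have e1 : n + a + (b - a) = n + b := by rw [add_assoc, Nat.add_sub_cancel' hab.le]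
    have e2 : n + a + (c - a) = n + c := by
      rw [add_assoc, Nat.add_sub_cancel' (hab.trans hbc).le]
    have h1 := hn k ⟨a, by simp, c, by simp, hk1, hk2.trans e2.le⟩
    rw [h1, e1, e2]
    simp only [Finset.mem_insert, Finset.mem_singleton, exists_eq_or_imp, exists_eq_left]
  refine ⟨key, ?_⟩
  obtain ⟨a, -, b, -, c, hc, hab, hbc, hinf⟩ := key Pool.Agent.Helper29.H2.setT
    Pool.Agent.Helper29.H2.setT_card Pool.Agent.Helper29.H2.setT_adm
  have h1 := Pool.Agent.Helper29.H2.setT_le c hc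
  exact ⟨b - a, c - a, by omega, by omega, hinf⟩

end Pool.Agent.Results.MP_3ec731_nt.ThreeConsecutive
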